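import Pool.Agent.R280.LipSD2P

/-!
Modifications of Lipschitz maps near spread out pairs of points.
-/

set_option autoImplicit false
set_option linter.unusedSectionVars false

open Set Topology Filter

universe u v w

namespace Pool.Agent.H843.LD

open Pool.Agent.R280.Lip

variable {M : Type u} [MetricSpace M] {o : M} {X : Type v} [NormedAddCommGroup X] [NormedSpace ℝ X]

/-- the modification of `f`: flattened around `u`, plus a bump -/
noncomputable def modf (u v : M) (R δ : ℝ) (f : M → X) (e : X) (x : M) : X :=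
  glue u R δ f (fun _ => f u) x + (max 0 (dist u v - dist x u)) • e

section modf

variable {u v : M} {R δ η : ℝ} {f : M → X} {e : X}

lemma glue_lip (hR : 0 < R) (hδ : 0 < δ) (hf : ∀ x y, ‖f x - f y‖ ≤ dist x y) (x y : M) :
    ‖glue u R δ f (fun _ => f u) x - glue u R δ f (fun _ => f u) y‖ ≤ (1 + δ) * dist x y := by
  obtain ⟨θ, hθ, hle⟩ := glue_sub (F := f) (G := fun _ => f u) (p := u) hR hδ zero_le_one
    (fun x => by
      rw [norm_sub_rev, one_mul]
      exact hf x u) x y
  have hθ0 : 0 ≤ θ ∧ θ ≤ 1 := by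
    rcases hθ with h | h <;> rw [h] <;> exact cut_mem hR hδ _
  simp only [sub_self, norm_zero, mul_zero, add_zero, one_mul] at hle
  have h1 := hf x y
  have h2 : (1 - θ) * ‖f x - f y‖ ≤ 1 * dist x y :=
    mul_le_mul (by linarith) h1 (norm_nonneg _) zero_le_one
  linarith

lemma glue_inner (hR : 0 < R) (hδ : 0 < δ) {x : M} (hx : dist x u ≤ R * Real.exp (-δ⁻¹)) :
    glue u R δ f (fun _ => f u) x = f u := by
  unfold glue
  rw [cut_inner hR hδ hx]
  simp

lemma glue_outer (hR : 0 < R) (hδ : 0 < δ) {x : M} (hx : R ≤ dist x u) :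
    glue u R δ f (fun _ => f u) x = f x := by
  unfold glue
  rw [cut_outer hR hδ hx]
  simp

lemma tent_lip (x y : M) :
    |max 0 (dist u v - dist x u) - max 0 (dist u v - dist y u)| ≤ dist x y := by
  rw [max_comm 0 (dist u v - dist x u), max_comm 0 (dist u v - dist y u)]
  refine (abs_max_sub_max_le_abs _ _ _).trans ?_
  have h1 := dist_triangle x y u
  have h2 := dist_triangle y x u
  rw [dist_comm y x] at h2
  rw [abs_le]
  constructor <;> linarith

lemma modf_lip (hR : 0 < R) (hδ : 0 < δ) (hη : 0 < η) (hf : ∀ x y, ‖f x - f y‖ ≤ dist x y)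
    (he : ‖e‖ ≤ 1) (huv : dist u v ≤ η * (R * Real.exp (-δ⁻¹) - dist u v))
    (huv' : dist u v < R * Real.exp (-δ⁻¹)) (x y : M) :
    ‖modf u v R δ f e x - modf u v R δ f e y‖ ≤ (1 + δ + η) * dist x y := by
  have key : ∀ x y : M, dist x u < dist u v →
      ‖modf u v R δ f e x - modf u v R δ f e y‖ ≤ (1 + δ + η) * dist x y := by
    intro x y hx
    have hd : 0 ≤ dist x y := dist_nonneg
    have hsplit : modf u v R δ f e x - modf u v R δ f e y =
        (glue u R δ f (fun _ => f u) x - glue u R δ f (fun _ => f u) y) +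
        (max 0 (dist u v - dist x u) - max 0 (dist u v - dist y u)) • e := by
      unfold modf
      rw [sub_smul]
      abel
    rw [hsplit]
    refine (norm_add_le _ _).trans ?_
    rw [norm_smul, Real.norm_eq_abs]
    rcases le_or_gt (dist y u) (R * Real.exp (-δ⁻¹)) with hy | hy
    · rw [glue_inner hR hδ hy, glue_inner hR hδ (hx.le.trans huv'.le), sub_self, norm_zero, zero_add]
      have h1 := tent_lip (u := u) (v := v) x y
      have h2 : |max 0 (dist u v - dist x u) - max 0 (dist u v - dist y u)| * ‖e‖ ≤ dist x y * 1 :=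
        mul_le_mul h1 he (norm_nonneg _) hd
      nlinarith
    · have h1 := glue_lip (u := u) hR hδ hf x y
      have h3 : max 0 (dist u v - dist y u) = 0 := max_eq_left (by linarith)
      have h4 : max 0 (dist u v - dist x u) ≤ dist u v :=
        max_le dist_nonneg (by linarith [dist_nonneg (x := x) (y := u)])
      have h4' : 0 ≤ max 0 (dist u v - dist x u) := le_max_left _ _
      rw [h3, sub_zero, abs_of_nonneg h4']
      have h5 : max 0 (dist u v - dist x u) * ‖e‖ ≤ dist u v * 1 :=
        mul_le_mul h4 he (norm_nonneg _) dist_nonneg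
      have h6 : R * Real.exp (-δ⁻¹) - dist u v ≤ dist x y := by
        have := dist_triangle_left y u x
        rw [dist_comm x y] at *
        linarith
      have h7 := mul_le_mul_of_nonneg_left h6 hη.le
      nlinarith
  rcases lt_or_ge (dist x u) (dist u v) with hx | hx
  · exact key x y hx
  rcases lt_or_ge (dist y u) (dist u v) with hy | hy
  · rw [norm_sub_rev, dist_comm]
    exact key y x hy
  · have h1 := glue_lip (u := u) hR hδ hf x y
    have h3 : max 0 (dist u v - dist y u) = 0 := max_eq_left (by linarith)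
    have h4 : max 0 (dist u v - dist x u) = 0 := max_eq_left (by linarith)
    unfold modf
    rw [h3, h4, zero_smul, add_zero, add_zero]
    have hd : 0 ≤ dist x y := dist_nonneg
    nlinarith

lemma modf_outer (hR : 0 < R) (hδ : 0 < δ) (huv' : dist u v < R * Real.exp (-δ⁻¹)) {x : M}
    (hx : R ≤ dist x u) : modf u v R δ f e x = f x := by
  have h1 := inner_lt hR hδ
  unfold modf
  rw [glue_outer hR hδ hx, max_eq_left (by linarith), zero_smul, add_zero]

lemma modf_pair (hR : 0 < R) (hδ : 0 < δ) (huv' : dist u v < R * Real.exp (-δ⁻¹)) :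
    modf u v R δ f e u - modf u v R δ f e v = dist u v • e := by
  unfold modf
  rw [glue_inner hR hδ (x := u) (by rw [dist_self]; exact (inner_pos hR).le),
    glue_inner hR hδ (x := v) (by rw [dist_comm]; exact huv'.le), dist_self, sub_zero,
    dist_comm v u, sub_self, max_self, zero_smul, add_zero, max_eq_right dist_nonneg]
  abel

end modf

/-- **Core lemma.** If `Lip_0(M)` has the Daugavet property, `Λ` is a functional on
`Lip_0(M, X)`, `f` is in the unit ball of that space, and `g : M → Z` is a nonexpansive map which is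
almost isometric on some pair of points, then there are a pair `(u, v)` on which `g` is almost
isometric and `F` in `Lip_0(M, X)` with `‖F‖ ≤ 1 + ε`, `|Λ F - Λ f| ≤ ε` and
`F u - F v = d(u, v) e(u, v)`, where `e(u, v)` is a prescribed element of the unit ball of `X`. -/
theorem core (hD : Daugavet (LipZ M o ℝ)) {Z : Type w} [NormedAddCommGroup Z] [NormedSpace ℝ Z]
    (Λ : LipZ M o X →L[ℝ] ℝ) (f : LipZ M o X) (hf : ‖f‖ ≤ 1) (e : M → M → X)
    (he : ∀ u v, ‖e u v‖ ≤ 1) {g : M → Z} (hg : ∀ x y, ‖g x - g y‖ ≤ dist x y)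
    {ε : ℝ} (hε : 0 < ε)
    (hpair : ∀ c : ℝ, c < 1 → ∃ x y : M, x ≠ y ∧ c * dist x y < ‖g x - g y‖) :
    ∃ (u v : M) (F : LipZ M o X), u ≠ v ∧ (1 - ε) * dist u v ≤ ‖g u - g v‖ ∧ ‖F‖ ≤ 1 + ε ∧
      |Λ F - Λ f| ≤ ε ∧ F.fn u - F.fn v = dist u v • e u v := by
  classical
  set ε1 : ℝ := min ε 1 with hε1
  have hε10 : 0 < ε1 := lt_min hε one_pos
  have hε1ε : ε1 ≤ ε := min_le_left _ _
  have hε11 : ε1 ≤ 1 := min_le_right _ _
  set δ : ℝ := ε1 / 2 with hδdef
  have hδ : 0 < δ := by positivity
  set εp : ℝ := ε1 / 100 with hεp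
  have hεp0 : 0 < εp := by positivity
  obtain ⟨x0, y0, hne, hxy⟩ := hpair (1 - εp) (by linarith)
  obtain ⟨n, hn⟩ := exists_nat_gt (6 * (‖Λ‖ + 1) / ε)
  have hn' : 6 * (‖Λ‖ + 1) < n * ε := by rwa [div_lt_iff₀ hε] at hn
  obtain ⟨ρ, hρ, H⟩ := exists_pairs hD hg hεp0 (by linarith) hne hxy.le n
  set r : ℝ := ρ * Real.exp (-δ⁻¹) with hr
  have hr0 : 0 < r := inner_pos hρ
  obtain ⟨u, v, huv, hclose, hslope, hsep⟩ := H (min (r / 2) (δ * (r / 2))) (by positivity)
  have hc1 : ∀ k, dist (u k) (v k) < r := fun k => by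
    have := (hclose k).trans_le (min_le_left _ _)
    linarith
  have hc2 : ∀ k, dist (u k) (v k) ≤ δ * (r - dist (u k) (v k)) := fun k => by
    have h1 := (hclose k).trans_le (min_le_left _ _)
    have h2 := (hclose k).trans_le (min_le_right _ _)
    have h3 : δ * (r / 2) ≤ δ * (r - dist (u k) (v k)) :=
      mul_le_mul_of_nonneg_left (by linarith) hδ.le
    linarith
  have hf' : ∀ x y, ‖f.fn x - f.fn y‖ ≤ dist x y := fun x y =>
    (f.sub_le x y).trans (mul_le_of_le_one_left dist_nonneg hf)
  set G : Fin n → M → X := fun k => modf (u k) (v k) ρ δ f.fn (e (u k) (v k)) with hG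
  have hGlip : ∀ k x y, ‖G k x - G k y‖ ≤ (1 + ε1) * dist x y := fun k x y => by
    have := modf_lip (u := u k) (v := v k) hρ hδ hδ hf' (he (u k) (v k)) (hc2 k) (hc1 k) x y
    have h2 : 1 + δ + δ = 1 + ε1 := by rw [hδdef]; ring
    rw [h2] at this
    exact this
  set b : Fin n → M → X := fun k x => G k x - f.fn x with hb
  have hblip : ∀ k x y, ‖b k x - b k y‖ ≤ 3 * dist x y := fun k x y => by
    have h1 : b k x - b k y = (G k x - G k y) - (f.fn x - f.fn y) := by
      simp only [hb]; abel
    rw [h1]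
    refine (norm_sub_le _ _).trans ?_
    have h2 := hGlip k x y
    have h3 := hf' x y
    have h4 := mul_le_mul_of_nonneg_right hε11 (dist_nonneg (x := x) (y := y))
    linarith
  have hbne : ∀ k x, b k x ≠ 0 → x ∈ {x : M | dist x (u k) < ρ} := fun k x h => by
    by_contra hx
    have hx' : ρ ≤ dist x (u k) := not_lt.1 hx
    apply h
    simp only [hb, hG]
    rw [modf_outer hρ hδ (hc1 k) hx', sub_self]
  have hdisj : ∀ j k, j ≠ k → Disjoint {x : M | dist x (u j) < ρ} {x : M | dist x (u k) < ρ} := by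
    intro j k hjk
    rw [Set.disjoint_left]
    intro x hx hx'
    have h1 := hsep j k hjk
    have h2 := dist_triangle_left (u j) (u k) x
    have h3 : dist x (u j) < ρ := hx
    have h4 : dist x (u k) < ρ := hx'
    linarith
  -- the elements of `Lip_0(M, X)`
  let h : Fin n → LipZ M o X := fun k => LipZ.mk' (fun x => b k x - b k o) (sub_self _) 3
    (by norm_num) (fun x y => by
      rw [sub_sub_sub_cancel_right]
      exact hblip k x y)
  have hh : ∀ k x y, (h k).fn x - (h k).fn y = b k x - b k y := fun k x y => by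
    show (b k x - b k o) - (b k y - b k o) = _
    abel
  have hsum : ∑ k, |Λ (h k)| ≤ ‖Λ‖ * 6 := by
    let s : Fin n → ℝ := fun k => if 0 ≤ Λ (h k) then 1 else -1
    have hs : ∀ k, |s k| = 1 := fun k => by
      simp only [s]; split_ifs <;> simp
    have h1 : ∑ k, |Λ (h k)| = Λ (∑ k, s k • h k) := by
      rw [map_sum]
      refine Finset.sum_congr rfl fun k _ => ?_
      rw [map_smul, smul_eq_mul]
      simp only [s]
      split_ifs with hk
      · rw [one_mul, abs_of_nonneg hk]
      · rw [abs_of_neg (not_le.1 hk)]; ring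
    rw [h1]
    refine (le_abs_self _).trans ?_
    rw [← Real.norm_eq_abs]
    refine (Λ.le_opNorm _).trans ?_
    refine mul_le_mul_of_nonneg_left ?_ (norm_nonneg _)
    refine LipZ.norm_le_of _ (by norm_num) fun x y => ?_
    have h2 : (∑ k, s k • h k).fn x - (∑ k, s k • h k).fn y = ∑ k, (s k • b k x - s k • b k y) := by
      rw [← LipZ.evd_apply, map_sum]
      refine Finset.sum_congr rfl fun k _ => ?_
      rw [LipZ.evd_apply, LipZ.fn_smul, LipZ.fn_smul, ← smul_sub, hh, smul_sub]
    rw [h2]
    refine sum_disjoint (b := fun k x => s k • b k x) hdisj ?_ ?_ x y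
    · intro k x hx
      apply hbne k x
      intro h0
      apply hx
      show s k • b k x = 0
      rw [h0, smul_zero]
    · intro k x y
      show ‖s k • b k x - s k • b k y‖ ≤ _
      rw [← smul_sub, norm_smul, Real.norm_eq_abs, hs, one_mul]
      exact hblip k x y
  obtain ⟨k, hk⟩ : ∃ k, |Λ (h k)| ≤ ε := by
    by_contra hcon
    push Not at hcon
    have h1 : ∑ _k : Fin n, ε ≤ ∑ k, |Λ (h k)| := Finset.sum_le_sum fun k _ => (hcon k).le
    rw [Finset.sum_const, Finset.card_univ, Fintype.card_fin, nsmul_eq_mul] at h1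
    linarith
  refine ⟨u k, v k, f + h k, huv k, ?_, ?_, ?_, ?_⟩
  · refine le_trans ?_ (hslope k)
    refine mul_le_mul_of_nonneg_right ?_ dist_nonneg
    linarith
  · refine LipZ.norm_le_of _ (by linarith) fun x y => ?_
    have h1 : (f + h k).fn x - (f + h k).fn y = G k x - G k y := by
      rw [LipZ.fn_add, LipZ.fn_add]
      have h2 := hh k x y
      have h3 : f.fn x + (h k).fn x - (f.fn y + (h k).fn y) =
        (f.fn x - f.fn y) + ((h k).fn x - (h k).fn y) := by abel
      rw [h3, h2]
      simp only [hb]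
      abel
    rw [h1]
    refine (hGlip k x y).trans ?_
    exact mul_le_mul_of_nonneg_right (by linarith) dist_nonneg
  · rw [map_add, add_sub_cancel_left]
    exact hk
  · have h1 : (f + h k).fn (u k) - (f + h k).fn (v k) = G k (u k) - G k (v k) := by
      rw [LipZ.fn_add, LipZ.fn_add]
      have h2 := hh k (u k) (v k)
      have h3 : f.fn (u k) + (h k).fn (u k) - (f.fn (v k) + (h k).fn (v k)) =
        (f.fn (u k) - f.fn (v k)) + ((h k).fn (u k) - (h k).fn (v k)) := by abel
      rw [h3, h2]
      simp only [hb]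
      abel
    rw [h1]
    exact modf_pair hρ hδ (hc1 k)

end Pool.Agent.H843.LD
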