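import Pool.Agent.H843.LD.Core
import Pool.Agent.H130R4.DA5

/-!
The Lipschitz-free space and its projective tensor products.
-/

set_option autoImplicit false
set_option linter.unusedSectionVars false

open Set Topology Filter

universe u v w

namespace Pool.Agent.H843.LD

open Pool.Agent.R280.Lip Pool.Agent.H130R4.DA

section free

/-- The evaluation functional `δ_x : f ↦ f x` on `Lip_0(M)`. -/
noncomputable def delta (M : Type u) [MetricSpace M] (o : M) (x : M) :
    StrongDual ℝ (LipZ M o ℝ) :=
  LinearMap.mkContinuous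
    { toFun := fun f => f.fn x
      map_add' := fun _ _ => rfl
      map_smul' := fun _ _ => rfl } (dist x o) (fun f => by
        have := f.sub_le x o
        rw [LipZ.fn_base, sub_zero, mul_comm] at this
        exact this)

/-- The closed linear span of the evaluation functionals in the dual of `Lip_0(M)`. -/
noncomputable def freeSub (M : Type u) [MetricSpace M] (o : M) :
    Submodule ℝ (StrongDual ℝ (LipZ M o ℝ)) :=
  (Submodule.span ℝ (Set.range (delta M o))).topologicalClosure

/-- The Lipschitz-free space `F(M)` of the pointed metric space `(M, o)`: the closed linear span of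
the evaluation functionals in the dual of `Lip_0(M)`, with the norm of the dual. -/
def Free (M : Type u) [MetricSpace M] (o : M) : Type u := ↥(freeSub M o)

noncomputable instance (M : Type u) [MetricSpace M] (o : M) : NormedAddCommGroup (Free M o) :=
  Submodule.normedAddCommGroup (freeSub M o)

noncomputable instance (M : Type u) [MetricSpace M] (o : M) : NormedSpace ℝ (Free M o) :=
  Submodule.normedSpace (freeSub M o)

variable {M : Type u} [MetricSpace M] {o : M} {X : Type v} [NormedAddCommGroup X] [NormedSpace ℝ X]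

/-- the element of the dual of `Lip_0(M)` -/
def Free.val (m : Free M o) : StrongDual ℝ (LipZ M o ℝ) := Subtype.val m

/-- the inclusion of `F(M)` in the dual of `Lip_0(M)` -/
noncomputable def Free.subtype (M : Type u) [MetricSpace M] (o : M) :
    Free M o →L[ℝ] StrongDual ℝ (LipZ M o ℝ) := (freeSub M o).subtypeL

lemma Free.subtype_apply (m : Free M o) : Free.subtype M o m = m.val := rfl

lemma Free.norm_def (m : Free M o) : ‖m‖ = ‖m.val‖ := rfl

lemma delta_mem (x : M) : delta M o x ∈ freeSub M o :=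
  Submodule.le_topologicalClosure _ (Submodule.subset_span ⟨x, rfl⟩)

/-- `δ_x` as an element of `F(M)` -/
noncomputable def dl (o x : M) : Free M o := ⟨delta M o x, delta_mem x⟩

lemma dl_val (x : M) : (dl o x).val = delta M o x := rfl

lemma delta_apply (x : M) (f : LipZ M o ℝ) : delta M o x f = f.fn x := rfl

lemma norm_dl_sub (x y : M) : ‖dl o x - dl o y‖ ≤ dist x y := by
  have h : ‖dl o x - dl o y‖ = ‖delta M o x - delta M o y‖ := rfl
  rw [h]
  refine ContinuousLinearMap.opNorm_le_bound _ dist_nonneg fun f => ?_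
  have h1 : (delta M o x - delta M o y) f = f.fn x - f.fn y := rfl
  rw [h1, mul_comm]
  exact f.sub_le x y

lemma dl_base : dl o o = 0 := by
  have h := norm_dl_sub (o := o) o o
  have h1 : delta M o o = 0 := by
    ext f
    rw [delta_apply, LipZ.fn_base]
    rfl
  exact Subtype.ext h1

/-- two continuous functionals on `F(M)` which agree at the `δ_x` are equal -/
lemma free_ext {a b : StrongDual ℝ (Free M o)} (h : ∀ x, a (dl o x) = b (dl o x)) : a = b := by
  set c : StrongDual ℝ (Free M o) := a - b with hc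
  have hc0 : ∀ x, c (dl o x) = 0 := fun x => by
    rw [hc, sub_apply, h, sub_self]
  have hspan : Submodule.span ℝ (Set.range (delta M o)) ≤
      (LinearMap.ker (c : Free M o →ₗ[ℝ] ℝ)).map
        (Free.subtype M o : Free M o →ₗ[ℝ] StrongDual ℝ (LipZ M o ℝ)) := by
    rw [Submodule.span_le]
    rintro _ ⟨x, rfl⟩
    exact ⟨dl o x, hc0 x, rfl⟩
  have hz : ∀ m, c m = 0 := by
    intro m
    rw [← norm_le_zero_iff]
    refine le_of_forall_pos_le_add fun ε hε => ?_
    rw [zero_add]
    have hm : m.val ∈ closure (Submodule.span ℝ (Set.range (delta M o)) :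
        Set (StrongDual ℝ (LipZ M o ℝ))) := m.2
    obtain ⟨s, hs, hsd⟩ := Metric.mem_closure_iff.1 hm (ε / (‖c‖ + 1)) (by positivity)
    obtain ⟨m', hm', rfl⟩ := hspan hs
    have h1 : c m' = 0 := hm'
    have h2 : c m = c (m - m') := by rw [map_sub, h1, sub_zero]
    rw [h2]
    refine (c.le_opNorm _).trans ?_
    have h3 : ‖m - m'‖ = dist m.val (Free.subtype M o m') := by
      rw [dist_eq_norm]; rfl
    have h4 : ‖m - m'‖ < ε / (‖c‖ + 1) := by rw [h3]; exact hsd
    calc ‖c‖ * ‖m - m'‖ ≤ (‖c‖ + 1) * (ε / (‖c‖ + 1)) := by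
          gcongr
          linarith
      _ = ε := by field_simp
  ext m
  have := hz m
  rw [hc, sub_apply, sub_eq_zero] at this
  exact this

/-- two continuous functionals on the projective tensor product which agree at the elementary
tensors are equal -/
lemma proj_ext {E : Type u} [NormedAddCommGroup E] [NormedSpace ℝ E]
    {a b : StrongDual ℝ (ProjectiveTensorProduct ℝ E X)}
    (h : ∀ (m : E) (e : X), a (incl (ProjTensor.tmul ℝ m e)) = b (incl (ProjTensor.tmul ℝ m e))) :
    a = b := by
  have h1 : ∀ t : ProjTensor ℝ E X, a (incl t) = b (incl t) := by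
    intro t
    obtain ⟨_, n, x, y, ht, -⟩ := t.repSums_nonempty
    rw [ht, map_sum, map_sum, map_sum]
    exact Finset.sum_congr rfl fun i _ => h _ _
  ext z
  rw [← sub_eq_zero, ← norm_le_zero_iff]
  refine le_of_forall_pos_le_add fun ε hε => ?_
  rw [zero_add]
  obtain ⟨t, ht⟩ := dense_incl z (ε / (‖a - b‖ + 1)) (by positivity)
  have h2 : a z - b z = (a - b) (z - incl t) := by
    rw [map_sub, sub_apply, sub_apply, h1 t, sub_self,
      sub_zero]
  rw [h2]
  refine ((a - b).le_opNorm _).trans ?_
  calc ‖a - b‖ * ‖z - incl t‖ ≤ (‖a - b‖ + 1) * (ε / (‖a - b‖ + 1)) := by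
        gcongr
        linarith
    _ = ε := by field_simp

/-- the scalar function `x ↦ F(x)(e)` -/
noncomputable def sc (F : LipZ M o (StrongDual ℝ X)) (e : X) : LipZ M o ℝ :=
  LipZ.mk' (fun x => F.fn x e) (by rw [LipZ.fn_base]; rfl) (‖F‖ * ‖e‖) (by positivity)
    (fun x y => by
      have h1 : F.fn x e - F.fn y e = (F.fn x - F.fn y) e := rfl
      rw [h1]
      refine ((F.fn x - F.fn y).le_opNorm e).trans ?_
      calc ‖F.fn x - F.fn y‖ * ‖e‖ ≤ (‖F‖ * dist x y) * ‖e‖ :=
            mul_le_mul_of_nonneg_right (F.sub_le x y) (norm_nonneg _)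
        _ = ‖F‖ * ‖e‖ * dist x y := by ring)

lemma sc_fn (F : LipZ M o (StrongDual ℝ X)) (e : X) (x : M) : (sc F e).fn x = F.fn x e := rfl

lemma norm_sc_le (F : LipZ M o (StrongDual ℝ X)) (e : X) : ‖sc F e‖ ≤ ‖F‖ * ‖e‖ :=
  LipZ.norm_le_of _ (by positivity) fun x y => by
    have h1 : (sc F e).fn x - (sc F e).fn y = (F.fn x - F.fn y) e := rfl
    rw [h1]
    refine ((F.fn x - F.fn y).le_opNorm e).trans ?_
    calc ‖F.fn x - F.fn y‖ * ‖e‖ ≤ (‖F‖ * dist x y) * ‖e‖ :=
          mul_le_mul_of_nonneg_right (F.sub_le x y) (norm_nonneg _)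
      _ = ‖F‖ * ‖e‖ * dist x y := by ring

lemma bi_bound (F : LipZ M o (StrongDual ℝ X)) (e : X) (m : Free M o) :
    ‖m.val (sc F e)‖ ≤ (‖F‖ * ‖e‖) * ‖m‖ := by
  refine (m.val.le_opNorm _).trans ?_
  rw [← Free.norm_def, mul_comm]
  exact mul_le_mul_of_nonneg_right (norm_sc_le F e) (norm_nonneg _)

/-- the functional `m ↦ m(F(·)(e))` -/
noncomputable def bi (F : LipZ M o (StrongDual ℝ X)) (e : X) : StrongDual ℝ (Free M o) :=
  LinearMap.mkContinuous
    { toFun := fun m : Free M o => m.val (sc F e)
      map_add' := fun _ _ => rfl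
      map_smul' := fun _ _ => rfl } (‖F‖ * ‖e‖) (bi_bound F e)

lemma bi_apply (F : LipZ M o (StrongDual ℝ X)) (e : X) (m : Free M o) :
    bi F e m = m.val (sc F e) := rfl

lemma norm_bi_le (F : LipZ M o (StrongDual ℝ X)) (e : X) : ‖bi F e‖ ≤ ‖F‖ * ‖e‖ :=
  LinearMap.mkContinuous_norm_le _ (by positivity) (bi_bound F e)

/-- the bilinear form of `F` -/
noncomputable def bil (F : LipZ M o (StrongDual ℝ X)) : X →L[ℝ] StrongDual ℝ (Free M o) :=
  LinearMap.mkContinuous
    { toFun := fun e => bi F e
      map_add' := fun e e' => by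
        ext m
        show m.val (sc F (e + e')) = m.val (sc F e) + m.val (sc F e')
        rw [← map_add]
        congr 1
        apply LipZ.ext
        intro x
        rw [LipZ.fn_add, sc_fn, sc_fn, sc_fn, map_add]
      map_smul' := fun c e => by
        ext m
        show m.val (sc F (c • e)) = c • m.val (sc F e)
        rw [← map_smul]
        congr 1
        apply LipZ.ext
        intro x
        rw [LipZ.fn_smul, sc_fn, sc_fn, map_smul] }
    ‖F‖ (fun e => norm_bi_le F e)

lemma bil_apply (F : LipZ M o (StrongDual ℝ X)) (e : X) (m : Free M o) :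
    bil F e m = m.val (sc F e) := rfl

lemma norm_bil_le (F : LipZ M o (StrongDual ℝ X)) (e : X) : ‖bil F e‖ ≤ ‖F‖ * ‖e‖ :=
  norm_bi_le F e

lemma exists_psi (F : LipZ M o (StrongDual ℝ X)) :
    ∃ G : StrongDual ℝ (ProjectiveTensorProduct ℝ (Free M o) X), ‖G‖ ≤ ‖F‖ ∧
      ∀ m e, G (incl (ProjTensor.tmul ℝ m e)) = m.val (sc F e) := by
  obtain ⟨G, h1, h2⟩ := exists_functional_of_bilin (bil F) ‖F‖ (norm_nonneg _) (norm_bil_le F)
  exact ⟨G, h1, fun m e => by rw [h2, bil_apply]⟩

/-- the functional on `F(M) ⊗ X` given by an element of `Lip_0(M, X*)` -/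
noncomputable def psi (F : LipZ M o (StrongDual ℝ X)) :
    StrongDual ℝ (ProjectiveTensorProduct ℝ (Free M o) X) := (exists_psi F).choose

lemma norm_psi_le (F : LipZ M o (StrongDual ℝ X)) : ‖psi F‖ ≤ ‖F‖ := (exists_psi F).choose_spec.1

lemma psi_apply (F : LipZ M o (StrongDual ℝ X)) (m : Free M o) (e : X) :
    psi F (incl (ProjTensor.tmul ℝ m e)) = m.val (sc F e) := (exists_psi F).choose_spec.2 m e

/-- the functional `F ↦ Ψ_F(z)` on `Lip_0(M, X*)` -/
noncomputable def lam (z : ProjectiveTensorProduct ℝ (Free M o) X) :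
    LipZ M o (StrongDual ℝ X) →L[ℝ] ℝ :=
  LinearMap.mkContinuous
    { toFun := fun F => psi F z
      map_add' := fun F F' => by
        have h : psi (F + F') = psi F + psi F' := proj_ext fun m e => by
          rw [add_apply, psi_apply, psi_apply, psi_apply, ← map_add]
          rfl
        rw [h, add_apply]
      map_smul' := fun c F => by
        have h : psi (c • F) = c • psi F := proj_ext fun m e => by
          rw [smul_apply, psi_apply, psi_apply, ← map_smul]
          rfl
        rw [h, smul_apply, RingHom.id_apply] }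
    ‖z‖ (fun F => by
      refine ((psi F).le_opNorm z).trans ?_
      rw [mul_comm]
      exact mul_le_mul_of_nonneg_left (norm_psi_le F) (norm_nonneg _))

lemma lam_apply (z : ProjectiveTensorProduct ℝ (Free M o) X) (F : LipZ M o (StrongDual ℝ X)) :
    lam z F = psi F z := rfl

/-- the functional `e ↦ G(δ_x ⊗ e)` -/
noncomputable def fv (G : StrongDual ℝ (ProjectiveTensorProduct ℝ (Free M o) X)) (m : Free M o) :
    StrongDual ℝ X :=
  LinearMap.mkContinuous
    { toFun := fun e => G (incl (ProjTensor.tmul ℝ m e))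
      map_add' := fun e e' => by
        have : ProjTensor.tmul ℝ m (e + e') = ProjTensor.tmul ℝ m e + ProjTensor.tmul ℝ m e' :=
          TensorProduct.tmul_add m e e'
        rw [this, map_add, map_add]
      map_smul' := fun c e => by
        have : ProjTensor.tmul ℝ m (c • e) = c • ProjTensor.tmul ℝ m e :=
          TensorProduct.tmul_smul c m e
        rw [this, map_smul, map_smul]
        rfl }
    (‖G‖ * ‖m‖) (fun e => by
      refine (G.le_opNorm _).trans ?_
      rw [norm_incl]
      calc ‖G‖ * ‖ProjTensor.tmul ℝ m e‖ ≤ ‖G‖ * (‖m‖ * ‖e‖) :=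
            mul_le_mul_of_nonneg_left (norm_tmul_le m e) (norm_nonneg _)
        _ = ‖G‖ * ‖m‖ * ‖e‖ := by ring)

lemma fv_apply (G : StrongDual ℝ (ProjectiveTensorProduct ℝ (Free M o) X)) (m : Free M o) (e : X) :
    fv G m e = G (incl (ProjTensor.tmul ℝ m e)) := rfl

lemma fv_sub (G : StrongDual ℝ (ProjectiveTensorProduct ℝ (Free M o) X)) (m m' : Free M o) :
    fv G m - fv G m' = fv G (m - m') := by
  ext e
  rw [sub_apply, fv_apply, fv_apply, fv_apply, ← map_sub, ← map_sub]
  congr 2
  exact (TensorProduct.sub_tmul m m' e).symm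

lemma norm_fv_le (G : StrongDual ℝ (ProjectiveTensorProduct ℝ (Free M o) X)) (m : Free M o) :
    ‖fv G m‖ ≤ ‖G‖ * ‖m‖ := LinearMap.mkContinuous_norm_le _ (by positivity) _

/-- the element of `Lip_0(M, X*)` given by a functional on `F(M) ⊗ X` -/
noncomputable def toLip (G : StrongDual ℝ (ProjectiveTensorProduct ℝ (Free M o) X)) :
    LipZ M o (StrongDual ℝ X) :=
  LipZ.mk' (fun x => fv G (dl o x)) (by
    rw [dl_base]
    ext e
    rw [fv_apply]
    have : ProjTensor.tmul ℝ (0 : Free M o) e = 0 := TensorProduct.zero_tmul _ e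
    rw [this, map_zero, map_zero]
    rfl) ‖G‖ (norm_nonneg _) (fun x y => by
      rw [fv_sub]
      refine (norm_fv_le _ _).trans ?_
      exact mul_le_mul_of_nonneg_left (norm_dl_sub x y) (norm_nonneg _))

lemma toLip_fn (G : StrongDual ℝ (ProjectiveTensorProduct ℝ (Free M o) X)) (x : M) :
    (toLip G).fn x = fv G (dl o x) := rfl

lemma norm_toLip_le (G : StrongDual ℝ (ProjectiveTensorProduct ℝ (Free M o) X)) :
    ‖toLip G‖ ≤ ‖G‖ := LipZ.norm_le_of _ (norm_nonneg _) fun x y => by
  rw [toLip_fn, toLip_fn, fv_sub]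
  refine (norm_fv_le _ _).trans ?_
  exact mul_le_mul_of_nonneg_left (norm_dl_sub x y) (norm_nonneg _)

lemma psi_toLip (G : StrongDual ℝ (ProjectiveTensorProduct ℝ (Free M o) X)) :
    psi (toLip G) = G := by
  refine proj_ext fun m e => ?_
  rw [psi_apply]
  have h : bil (toLip G) e = slc G e := free_ext fun x => by
    rw [bil_apply, dl_val, delta_apply, sc_fn, toLip_fn, fv_apply, slc_apply]
  have := congrArg (fun a : StrongDual ℝ (Free M o) => a m) h
  simpa only [bil_apply, slc_apply] using this

end free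

end Pool.Agent.H843.LD
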