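import Pool.Agent.H843.LD.Free

/-!
The Daugavet property of `Lip_0(M, X)` and of the projective tensor product of `F(M)` and `X`.
-/

set_option autoImplicit false
set_option linter.unusedSectionVars false

open Set Topology Filter

universe u v w

namespace Pool.Agent.H843.LD

open Pool.Agent.R280.Lip Pool.Agent.H130R4.DA

variable {M : Type u} [MetricSpace M] {o : M} {X : Type v} [NormedAddCommGroup X] [NormedSpace ℝ X]

/-- almost norming vectors of a functional of norm one -/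
lemma exists_norming {Y : Type w} [NormedAddCommGroup Y] [NormedSpace ℝ Y] {φ : Y →L[ℝ] ℝ}
    (hφ : ‖φ‖ = 1) {κ : ℝ} (hκ : 0 < κ) : ∃ f : Y, ‖f‖ ≤ 1 ∧ 1 - κ ≤ φ f ∧ φ f ≤ 1 := by
  obtain ⟨f, hf1, hf2⟩ := ContinuousLinearMap.exists_lt_apply_of_lt_opNorm φ
    (show 1 - κ < ‖φ‖ by rw [hφ]; linarith)
  have hle : ∀ g : Y, ‖g‖ ≤ 1 → φ g ≤ 1 := fun g hg => by
    have h1 := (le_abs_self _).trans (φ.le_opNorm g)
    rw [hφ, one_mul] at h1
    linarith
  rcases le_total 0 (φ f) with h | h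
  · refine ⟨f, hf1.le, ?_, hle f hf1.le⟩
    rw [Real.norm_of_nonneg h] at hf2
    exact hf2.le
  · refine ⟨-f, by rw [norm_neg]; exact hf1.le, ?_, hle _ (by rw [norm_neg]; exact hf1.le)⟩
    rw [Real.norm_of_nonpos h] at hf2
    rw [map_neg]
    exact hf2.le

/-- **Q1.** -/
theorem daugavet_lip (hD : Daugavet (LipZ M o ℝ)) : Daugavet (LipZ M o X) := by
  classical
  refine daugavet_of fun φ g hφ hg ε hε => ?_
  set κ : ℝ := min (ε / 4) (1 / 2) with hκ
  have hκ0 : 0 < κ := lt_min (by positivity) (by norm_num)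
  have hκε : κ ≤ ε / 4 := min_le_left _ _
  have hκ2 : κ ≤ 1 / 2 := min_le_right _ _
  obtain ⟨f, hf1, hf2, hf3⟩ := exists_norming hφ hκ0
  let e : M → M → X := fun u v => ‖g.fn u - g.fn v‖⁻¹ • (g.fn u - g.fn v)
  have he : ∀ u v, ‖e u v‖ ≤ 1 := fun u v => by
    show ‖‖g.fn u - g.fn v‖⁻¹ • (g.fn u - g.fn v)‖ ≤ 1
    rw [norm_smul, norm_inv, norm_norm]
    exact inv_mul_le_one
  have hg' : ∀ x y, ‖g.fn x - g.fn y‖ ≤ dist x y := fun x y => by
    have := g.sub_le x y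
    rwa [hg, one_mul] at this
  obtain ⟨u, v, F, huv, h1, h2, h3, h4⟩ := core hD φ f hf1 e he hg' hκ0 (fun c hc => by
    obtain ⟨x, y, hxy, h⟩ := g.exists_pair (c := max c 0) (le_max_right _ _)
      (by rw [hg]; exact max_lt hc one_pos)
    exact ⟨x, y, hxy, lt_of_le_of_lt (mul_le_mul_of_nonneg_right (le_max_left _ _) dist_nonneg) h⟩)
  have hd : 0 < dist u v := dist_pos.2 huv
  have hgpos : 0 < ‖g.fn u - g.fn v‖ := by
    refine lt_of_lt_of_le ?_ h1
    exact mul_pos (by linarith) hd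
  refine ⟨F, by linarith, ?_, ?_⟩
  · rw [abs_le] at h3 ⊢
    constructor <;> linarith
  · have h5 := (F + g).sub_le u v
    have h6 : (F + g).fn u - (F + g).fn v =
        (dist u v * ‖g.fn u - g.fn v‖⁻¹ + 1) • (g.fn u - g.fn v) := by
      rw [LipZ.fn_add, LipZ.fn_add, add_sub_add_comm, h4]
      show dist u v • ‖g.fn u - g.fn v‖⁻¹ • (g.fn u - g.fn v) + (g.fn u - g.fn v) = _
      rw [smul_smul, add_smul, one_smul]
    have h7 : ‖(F + g).fn u - (F + g).fn v‖ = dist u v + ‖g.fn u - g.fn v‖ := by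
      rw [h6, norm_smul, Real.norm_of_nonneg (by positivity)]
      field_simp
    rw [h7] at h5
    have h8 : (2 - κ) * dist u v ≤ ‖F + g‖ * dist u v := by linarith
    have h9 := le_of_mul_le_mul_right h8 hd
    linarith

/-- **Q2.** -/
theorem daugavet_proj (hD : Daugavet (LipZ M o ℝ)) :
    Daugavet (ProjectiveTensorProduct ℝ (Free M o) X) := by
  classical
  refine daugavet_of fun φ z hφ hz ε hε => ?_
  set κ : ℝ := min (ε / 8) (1 / 2) with hκ
  have hκ0 : 0 < κ := lt_min (by positivity) (by norm_num)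
  have hκε : κ ≤ ε / 8 := min_le_left _ _
  have hκ2 : κ ≤ 1 / 2 := min_le_right _ _
  -- the map given by `φ`
  set g : LipZ M o (StrongDual ℝ X) := toLip φ with hg
  have hg1 : ‖g‖ ≤ 1 := (norm_toLip_le φ).trans hφ.le
  have hg2 : 1 ≤ ‖g‖ := by
    rw [← hφ, ← psi_toLip φ]
    exact (norm_psi_le _).trans (le_of_eq (by rw [hg]))
  have hg' : ∀ x y, ‖g.fn x - g.fn y‖ ≤ dist x y := fun x y =>
    (g.sub_le x y).trans (mul_le_of_le_one_left dist_nonneg hg1)
  -- the norming functional of `z`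
  obtain ⟨Ψ, hΨ1, hΨ2⟩ := exists_dual_vector'' ℝ z
  have hΨ3 : Ψ z = 1 := by rw [hΨ2, hz]; simp
  set f : LipZ M o (StrongDual ℝ X) := toLip Ψ with hf
  have hf1 : ‖f‖ ≤ 1 := (norm_toLip_le Ψ).trans hΨ1
  have hf2 : lam z f = 1 := by rw [lam_apply, hf, psi_toLip, hΨ3]
  -- the vectors and functionals for the pairs
  have hch : ∀ u v : M, ∃ (e : X) (s : StrongDual ℝ X), ‖e‖ ≤ 1 ∧ ‖s‖ ≤ 1 ∧
      (0 < ‖g.fn u - g.fn v‖ → s e = 1 ∧ (1 - κ) * ‖g.fn u - g.fn v‖ ≤ (g.fn u - g.fn v) e) := by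
    intro u v
    set a := g.fn u - g.fn v with ha
    rcases eq_or_ne a 0 with h0 | h0
    · exact ⟨0, 0, by simp, by simp, fun h => by rw [h0, norm_zero] at h; exact absurd h (lt_irrefl _)⟩
    · have ha0 : 0 < ‖a‖ := norm_pos_iff.2 h0
      obtain ⟨e0, he0, he0'⟩ := ContinuousLinearMap.exists_lt_apply_of_lt_opNorm a
        (show (1 - κ) * ‖a‖ < ‖a‖ by nlinarith)
      have hpos : 0 < ‖a e0‖ := lt_of_le_of_lt (mul_nonneg (by linarith) ha0.le) he0'
      have hne : e0 ≠ 0 := by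
        rintro rfl
        rw [map_zero, norm_zero] at hpos
        exact lt_irrefl _ hpos
      have hn0 : 0 < ‖e0‖ := norm_pos_iff.2 hne
      -- the sign
      obtain ⟨t, ht1, ht2⟩ : ∃ t : ℝ, |t| = 1 ∧ t * a e0 = ‖a e0‖ := by
        rcases le_total 0 (a e0) with h | h
        · exact ⟨1, by simp, by rw [one_mul, Real.norm_of_nonneg h]⟩
        · exact ⟨-1, by simp, by rw [Real.norm_of_nonpos h]; ring⟩
      set e1 : X := (t * ‖e0‖⁻¹) • e0 with he1
      have he1n : ‖e1‖ = 1 := by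
        rw [he1, norm_smul, norm_mul, Real.norm_eq_abs, ht1, one_mul, norm_inv, norm_norm,
          inv_mul_cancel₀ hn0.ne']
      obtain ⟨s, hs1, hs2⟩ := exists_dual_vector'' ℝ e1
      refine ⟨e1, s, he1n.le, hs1, fun _ => ⟨by rw [hs2, he1n]; simp, ?_⟩⟩
      have h1 : a e1 = ‖a e0‖ * ‖e0‖⁻¹ := by
        rw [he1, map_smul, smul_eq_mul, ← ht2]; ring
      rw [h1]
      have h2 : 1 ≤ ‖e0‖⁻¹ := (one_le_inv₀ hn0).2 he0.le
      nlinarith
  choose e s he hs hes using hch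
  obtain ⟨u, v, F, huv, h1, h2, h3, h4⟩ := core hD (lam z) f hf1 s hs hg' hκ0 (fun c hc => by
    obtain ⟨x, y, hxy, h⟩ := g.exists_pair (c := max c 0) (le_max_right _ _)
      (lt_of_lt_of_le (max_lt hc one_pos) hg2)
    exact ⟨x, y, hxy, lt_of_le_of_lt (mul_le_mul_of_nonneg_right (le_max_left _ _) dist_nonneg) h⟩)
  have hd : 0 < dist u v := dist_pos.2 huv
  have hgpos : 0 < ‖g.fn u - g.fn v‖ := by
    refine lt_of_lt_of_le ?_ h1
    exact mul_pos (by linarith) hd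
  obtain ⟨hs1, hge⟩ := hes u v hgpos
  set w : ProjectiveTensorProduct ℝ (Free M o) X :=
    (dist u v)⁻¹ • incl (ProjTensor.tmul ℝ (dl o u - dl o v) (e u v)) with hw
  have hwn : ‖w‖ ≤ 1 := by
    rw [hw, norm_smul, norm_inv, Real.norm_of_nonneg hd.le, norm_incl, inv_mul_le_iff₀ hd, mul_one]
    refine (norm_tmul_le _ _).trans ?_
    calc ‖dl o u - dl o v‖ * ‖e u v‖ ≤ dist u v * 1 :=
          mul_le_mul (norm_dl_sub u v) (he u v) (norm_nonneg _) hd.le
      _ = dist u v := mul_one _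
  have hφw : φ w = (dist u v)⁻¹ * (g.fn u - g.fn v) (e u v) := by
    rw [hw, map_smul, smul_eq_mul]
    congr 1
    rw [hg, toLip_fn, toLip_fn, fv_sub, fv_apply]
  refine ⟨w, by linarith, ?_, ?_⟩
  · have h5 : φ w ≤ 1 := by
      have := (le_abs_self _).trans (φ.le_opNorm w)
      rw [hφ, one_mul] at this
      linarith
    have h6 : (1 - κ) * (1 - κ) ≤ φ w := by
      rw [hφw, ← div_eq_inv_mul, le_div_iff₀ hd]
      have h7 := mul_le_mul_of_nonneg_left h1 (show (0 : ℝ) ≤ 1 - κ by linarith)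
      linarith
    rw [abs_le]
    constructor <;> nlinarith
  · have h5 : psi F (w + z) = 1 + lam z F := by
      rw [map_add, lam_apply]
      congr 1
      rw [hw, map_smul, psi_apply, smul_eq_mul]
      have h6 : (dl o u - dl o v).val (sc F (e u v)) = (F.fn u - F.fn v) (e u v) := rfl
      rw [h6, h4, smul_apply, hs1, smul_eq_mul, mul_one, inv_mul_cancel₀ hd.ne']
    have h6 : 1 + lam z F ≤ (1 + κ) * ‖w + z‖ := by
      rw [← h5]
      refine (le_abs_self _).trans (((psi F).le_opNorm _).trans ?_)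
      exact mul_le_mul_of_nonneg_right ((norm_psi_le F).trans h2) (norm_nonneg _)
    rw [hf2, abs_le] at h3
    have h7 : ‖w + z‖ ≤ 2 := by
      refine (norm_add_le _ _).trans ?_
      rw [hz]; linarith
    nlinarith [norm_nonneg (w + z)]

/-- the Daugavet property in terms of operators of rank one -/
lemma daugavet_iff {Y : Type w} [NormedAddCommGroup Y] [NormedSpace ℝ Y] :
    Daugavet Y ↔ DaugavetProperty ℝ Y := by
  constructor
  · intro h T hT
    have hT' : Module.finrank ℝ (LinearMap.range (T : Y →ₗ[ℝ] Y)) = 1 := hT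
    rw [finrank_eq_one_iff'] at hT'
    obtain ⟨⟨g, hg⟩, hg0, hall⟩ := hT'
    have hg1 : g ≠ 0 := fun h0 => hg0 (Subtype.ext h0)
    have hgn : 0 < ‖g‖ := norm_pos_iff.2 hg1
    obtain ⟨s, hs1, hs2⟩ := exists_dual_vector'' ℝ g
    have hs3 : s g = ‖g‖ := by rw [hs2]; rfl
    set φ : Y →L[ℝ] ℝ := ‖g‖⁻¹ • (s.comp T) with hφ
    have hTe : T = φ.smulRight g := by
      ext y
      obtain ⟨c, hc⟩ := hall ⟨T y, ⟨y, rfl⟩⟩
      have hc' : c • g = T y := congrArg Subtype.val hc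
      rw [ContinuousLinearMap.smulRight_apply, hφ, smul_apply, ContinuousLinearMap.comp_apply,
        ← hc', map_smul, hs3, smul_eq_mul, smul_eq_mul]
      congr 1
      field_simp
    have hφ0 : φ ≠ 0 := by
      intro h0
      obtain ⟨y, hy⟩ := hg
      have hy' : T y = g := hy
      rw [hTe, h0] at hy'
      apply hg1
      rw [← hy']
      simp
    rw [hTe]
    exact h φ g hφ0 hg1
  · intro h φ g hφ hg
    refine h _ ?_
    show Module.finrank ℝ (LinearMap.range ((φ.smulRight g : Y →L[ℝ] Y) : Y →ₗ[ℝ] Y)) = 1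
    rw [finrank_eq_one_iff']
    obtain ⟨y, hy⟩ : ∃ y, φ y ≠ 0 := by
      by_contra hcon
      push Not at hcon
      exact hφ (ContinuousLinearMap.ext hcon)
    refine ⟨⟨g, ⟨(φ y)⁻¹ • y, ?_⟩⟩, ?_, ?_⟩
    · show φ ((φ y)⁻¹ • y) • g = g
      rw [map_smul, smul_eq_mul, inv_mul_cancel₀ hy, one_smul]
    · intro h0
      exact hg (congrArg Subtype.val h0)
    · rintro ⟨w, ⟨x, hx⟩⟩
      exact ⟨φ x, Subtype.ext hx⟩

end Pool.Agent.H843.LD
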